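import Pool.Agent.KS6_36.JEQ.Eq

/-!
# MP_68beba_co: the inflation factor of the John ellipsoid of the metric polytope, with its equality
case

`V n` is the Euclidean space of real families indexed by the unordered pairs of distinct elements
of `Fin n`, `ent d i j` is the entry `d_{ij}`, `metricPolytope n` is the metric polytope and
`cst t` is the point all of whose coordinates are `t`.
We determine `r_n` for every `n ≥ 3`, show that the points of the metric polytope which lie in no
smaller dilate of the John ellipsoid are exactly the balanced cut metrics, and deduce the inflation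
factors of the subsets of the metric polytope.
-/

set_option autoImplicit false

open MeasureTheory Metric Filter Topology

namespace Pool.Agent.Results.MP_68beba_co.BalancedCutsOnly

open Pool.Agent.R165.Metric (V cst metricPolytope ent)

/-- `E` is a (non-degenerate, solid) ellipsoid with centre `c`: an image `A(B) + c` of the closed
unit ball `B` under an invertible linear map followed by a translation. -/
def IsEllipsoid {n : ℕ} (E : Set (V n)) (c : V n) : Prop :=
  ∃ A : V n →ₗ[ℝ] V n, LinearMap.det A ≠ 0 ∧ E = (fun x => c + A x) '' closedBall 0 1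

/-- `E`, with centre `c`, is an ellipsoid of largest volume contained in the metric polytope. -/
def IsJohnEllipsoid (n : ℕ) (E : Set (V n)) (c : V n) : Prop :=
  IsEllipsoid E c ∧ E ⊆ metricPolytope n ∧
    ∀ (E' : Set (V n)) (c' : V n), IsEllipsoid E' c' → E' ⊆ metricPolytope n →
      volume E' ≤ volume E

open Classical in
/-- `d` is the cut metric `δ(S)`. -/
def IsCutMetric {n : ℕ} (S : Finset (Fin n)) (d : V n) : Prop :=
  ∀ i j : Fin n, ent d i j = if (i ∈ S ↔ j ∈ S) then 0 else 1

/-- `d` is a balanced cut metric: `d = δ(S)` with `|S| = ⌊n/2⌋`. -/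
def IsBalancedCut {n : ℕ} (d : V n) : Prop := ∃ S : Finset (Fin n), S.card = n / 2 ∧ IsCutMetric S d

lemma isCut_iff {n : ℕ} (S : Finset (Fin n)) (d : V n) :
    IsCutMetric S d ↔ d = Pool.Agent.R165.Metric.cut S := by
  classical
  have key : ∀ i j : Fin n, ent (Pool.Agent.R165.Metric.cut S) i j =
      if (i ∈ S ↔ j ∈ S) then 0 else 1 := by
    intro i j
    rw [Pool.Agent.R165.Metric.ent_cut]
    by_cases h1 : i ∈ S <;> by_cases h2 : j ∈ S <;> simp [h1, h2]
  constructor
  · intro h
    exact Pool.Agent.KS6_36.JEQ.V_ext fun i j _ => (h i j).trans (key i j).symm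
  · rintro rfl
    exact key

/-- For every `n ≥ 3` let `δ_n` be the unique root in `(0, 1)` of the cubic below. Then the metric
polytope has exactly one ellipsoid `E` of largest volume, its centre `c` is the constant `δ_n`, and

* the least factor `r_n` of a dilate of `E` that contains the metric polytope is given by the formula;
* a point of the metric polytope lies in no dilate with a factor `t < r_n` if and only if it is a
  balanced cut metric;
* a subset `K` of the metric polytope which contains a balanced cut metric has the same least factor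
  `r_n`, and a compact subset without balanced cut metrics is contained in a smaller dilate. -/
theorem result :
    ∃ δ r : ℕ → ℝ,
      (∀ n : ℕ, 3 ≤ n →
        (∀ x : ℝ, (0 < x ∧ x < 1 ∧
          (1 - x) * (2 * n - 2 - n * x) * (3 * n - 4 - (2 * n - 2) * x) =
            x * ((n - 2) * (2 * n - 2 - n * x) + 2 * (n - 2) * (1 - x) + 4 * (1 - x) ^ 2)) ↔
          x = δ n) ∧
        r n = √(n * (n - 1) * δ n / (2 * (1 - δ n)) +
          ((n ^ 2 / 4 : ℕ) : ℝ) * (2 - 3 * δ n) / (δ n * (1 - δ n))) ∧
        (∃ (E : Set (V n)) (c : V n), IsJohnEllipsoid n E c) ∧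
        (∀ (E : Set (V n)) (c : V n), IsJohnEllipsoid n E c →
          c = cst (δ n) ∧
          (∀ (E' : Set (V n)) (c' : V n), IsJohnEllipsoid n E' c' → E' = E) ∧
          IsLeast {t : ℝ | 0 < t ∧ metricPolytope n ⊆ AffineMap.homothety c t '' E} (r n) ∧
          (∀ d ∈ metricPolytope n,
            (∀ t : ℝ, 0 < t → t < r n → d ∉ AffineMap.homothety c t '' E) ↔ IsBalancedCut d) ∧
          (∀ K ⊆ metricPolytope n, (∃ d ∈ K, IsBalancedCut d) →
            IsLeast {t : ℝ | 0 < t ∧ K ⊆ AffineMap.homothety c t '' E} (r n)) ∧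
          (∀ K ⊆ metricPolytope n, IsCompact K → (∀ d ∈ K, ¬ IsBalancedCut d) →
            ∃ t : ℝ, 0 < t ∧ t < r n ∧ K ⊆ AffineMap.homothety c t '' E))) ∧
      Tendsto (fun n : ℕ => r n / n) atTop (𝓝 ((3 : ℝ) ^ (3 / 4 : ℝ) * √(5 + √3) / 6)) := by
  classical
  choose! δ h1 h2 h3 using fun (n : ℕ) (hn : 3 ≤ n) =>
    Pool.Agent.R165.Metric.exists_root hn
  refine ⟨δ, fun n => √(Pool.Agent.R165.Metric.Qmax n (δ n)), fun n hn => ?_, ?_⟩
  · have hd0 : 0 < δ n := by linarith [h1 n hn]
    have hd1 : δ n < 1 := by linarith [h2 n hn]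
    obtain ⟨j1, j2⟩ := Pool.Agent.R165.Metric.john hn hd0 hd1 (h3 n hn)
    set R := Pool.Agent.R165.Metric.R n (δ n) with hR
    have hRdet : LinearMap.det R ≠ 0 := Pool.Agent.R165.Metric.R_det hn hd0 hd1
    set E0 := Pool.Agent.R165.John.ellipsoid R (cst (δ n)) with hE0
    have hE0J : IsJohnEllipsoid n E0 (cst (δ n)) := by
      refine ⟨⟨R, hRdet, rfl⟩, j1, ?_⟩
      rintro E' c' ⟨A, hA, rfl⟩ hsub
      exact (Pool.Agent.R165.John.volume_le_iff A R c' (cst (δ n))).2 (j2 A c' hsub).1
    have huniq : ∀ (E : Set (V n)) (c : V n), IsJohnEllipsoid n E c → E = E0 ∧ c = cst (δ n) := by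
      rintro E c ⟨⟨A, hA, rfl⟩, hsub, hmax⟩
      have hv := hmax E0 (cst (δ n)) ⟨R, hRdet, rfl⟩ j1
      exact (j2 A c hsub).2
        ((Pool.Agent.R165.John.volume_le_iff R A (cst (δ n)) c).1 hv)
    refine ⟨fun x => ⟨?_, ?_⟩, rfl, ⟨E0, _, hE0J⟩, fun E c hE => ?_⟩
    · rintro ⟨hx0, hx1, hx⟩
      refine Pool.Agent.R165.Metric.root_unique hn hx0 hx1 ?_ hd0 hd1 (h3 n hn)
      unfold Pool.Agent.R165.Metric.cubic
      rw [hx, sub_self]
    · rintro rfl
      refine ⟨hd0, hd1, ?_⟩
      have := h3 n hn
      unfold Pool.Agent.R165.Metric.cubic at this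
      exact sub_eq_zero.1 this
    · obtain ⟨rfl, rfl⟩ := huniq E c hE
      have hleast := Pool.Agent.R165.Metric.isLeast hn (h1 n hn).le (h2 n hn).le
      have hext : ∀ d ∈ metricPolytope n,
          (∀ t : ℝ, 0 < t → t < √(Pool.Agent.R165.Metric.Qmax n (δ n)) →
            d ∉ AffineMap.homothety (cst (δ n)) t '' E0) ↔ IsBalancedCut d := by
        intro d hd
        rw [Pool.Agent.KS6_36.JEQ.extremal_iff hn (h1 n hn) (h2 n hn) hd]
        constructor
        · rintro ⟨S, hS, h⟩
          exact ⟨S, hS, (isCut_iff S d).2 h⟩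
        · rintro ⟨S, hS, h⟩
          exact ⟨S, hS, (isCut_iff S d).1 h⟩
      refine ⟨rfl, fun E' c' hE' => (huniq E' c' hE').1, hleast, hext, ?_, ?_⟩
      · rintro K hK ⟨d, hdK, hd⟩
        refine ⟨⟨hleast.1.1, hK.trans hleast.1.2⟩, ?_⟩
        rintro t ⟨ht0, ht⟩
        by_contra hlt
        rw [not_le] at hlt
        exact (hext d (hK hdK)).2 hd t ht0 hlt (ht hdK)
      · intro K hK hKc hKn
        have hpos := Pool.Agent.R165.Metric.Qmax_pos hn (h1 n hn).le (h2 n hn).le
        have hcont : Continuous fun d : V n => Pool.Agent.R165.Metric.Q n (δ n) d := by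
          have e : (fun d : V n => Pool.Agent.R165.Metric.Q n (δ n) d) = fun d =>
              ‖Pool.Agent.R165.Metric.Ri n (δ n) (d - cst (δ n))‖ ^ 2 := by
            funext d
            exact (Pool.Agent.R165.Metric.norm_Ri_sub hn hd0 hd1 d).symm
          rw [e]
          exact ((LinearMap.continuous_of_finiteDimensional _).comp
            (continuous_id.sub continuous_const)).norm.pow 2
        rcases K.eq_empty_or_nonempty with rfl | hne
        · refine ⟨√(Pool.Agent.R165.Metric.Qmax n (δ n)) / 2, by have := Real.sqrt_pos.2 hpos; positivity,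
            by have := Real.sqrt_pos.2 hpos; linarith, Set.empty_subset _⟩
        · obtain ⟨d0, hd0K, hmax⟩ := hKc.exists_isMaxOn hne hcont.continuousOn
          have hlt : Pool.Agent.R165.Metric.Q n (δ n) d0 < Pool.Agent.R165.Metric.Qmax n (δ n) := by
            refine lt_of_le_of_ne (Pool.Agent.R165.Metric.Q_le hn (h1 n hn).le (h2 n hn).le (hK hd0K))
              fun heq => ?_
            obtain ⟨S, hS, h⟩ := Pool.Agent.KS6_36.JEQ.eq_case hn (h1 n hn) (h2 n hn) (hK hd0K) heq
            exact hKn d0 hd0K ⟨S, hS, (isCut_iff S d0).2 h⟩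
          set q := max (Pool.Agent.R165.Metric.Q n (δ n) d0)
            (Pool.Agent.R165.Metric.Qmax n (δ n) / 2) with hq
          have hq0 : 0 < q := lt_of_lt_of_le (by linarith) (le_max_right _ _)
          have hq1 : q < Pool.Agent.R165.Metric.Qmax n (δ n) := max_lt hlt (by linarith)
          refine ⟨√q, Real.sqrt_pos.2 hq0, Real.sqrt_lt_sqrt hq0.le hq1, fun d hd => ?_⟩
          rw [Pool.Agent.R165.Metric.mem_dilate_iff hn hd0 hd1 (Real.sqrt_pos.2 hq0),
            Real.sq_sqrt hq0.le]
          exact (hmax hd).trans (le_max_left _ _)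
  · have hlim : Tendsto δ atTop (𝓝 ((3 - √3) / 2)) := by
      rw [tendsto_iff_norm_sub_tendsto_zero]
      have hz : Tendsto (fun n : ℕ => (10 : ℝ) / n) atTop (𝓝 0) :=
        tendsto_const_div_atTop_nhds_zero_nat 10
      refine squeeze_zero' (Eventually.of_forall fun n => norm_nonneg _) ?_ hz
      filter_upwards [eventually_ge_atTop 3] with n hn
      rw [Real.norm_eq_abs]
      exact Pool.Agent.R165.Metric.root_bound hn (h1 n hn) (h2 n hn) (h3 n hn)
    have h4 := (Real.continuous_sqrt.tendsto _).comp
      (Pool.Agent.R165.Metric.tendsto_Qmax δ hlim)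
    rw [Pool.Agent.R165.Metric.const_eq] at h4
    refine h4.congr fun n => ?_
    simp only [Function.comp_apply]
    rw [Real.sqrt_div' _ (by positivity), Real.sqrt_sq (Nat.cast_nonneg n)]

end Pool.Agent.Results.MP_68beba_co.BalancedCutsOnly
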